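import Pool.Agent.Helper97.SF.Guess

set_option autoImplicit false

namespace Pool.Agent.Results.MP_c7a7e6_lc.DiamondMenger

open Pool.Agent.Helper97.SF

/-- The parametrized diamond `♢(𝔡)` of Moore, Hrušák and Džamonja implies that there is a semifilter
`F` with `F ⊆ F⁺` such that `F⁺` is Menger. -/
theorem result : DiamondD → ∃ F : Set (ℕ → Bool), IsSemifilter F ∧ F ⊆ plus F ∧ Menger (plus F) :=
  main97

end Pool.Agent.Results.MP_c7a7e6_lc.DiamondMenger
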